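import Pool.Agent.Q206.Dir.Crit2

/-!
# The lowest gap eigenvalue of a Dirac operator on the line is not concave in the potential

Two square wells on the line, proportional to each other, violate the inequality of Q1, for every
exponent `p ≥ 1`.
-/

open MeasureTheory

namespace Pool.Agent.Results.MP_0b7119_mp.ConcavityFails

open Pool.Agent.Q206.Dir

/-- **Theorem** (negative answer to Q1 for `d = 1` and every `p ≥ 1`). For every mass `m > 0` and
every `p ≥ 1` there are potentials `V ≥ 0` and `W = c V`, `c > 1`, in `L^p` of the line with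
`∫ V^p < crit m p`, `∫ W^p < crit m p` (the value `α_⋆(p)^p` for `d = 1`) and
`λ_D(V/2 + W/2) < λ_D(V)/2 + λ_D(W)/2`. -/
theorem result {m p : ℝ} (hm : 0 < m) (hp : 1 ≤ p) : ∃ V W : ℝ → ℝ,
    (∀ x, 0 ≤ V x) ∧ (∃ c : ℝ, 1 < c ∧ ∀ x, W x = c * V x) ∧
    MemLp V (ENNReal.ofReal p) ∧ MemLp W (ENNReal.ofReal p) ∧
    (∫ x, V x ^ p) < crit m p ∧ (∫ x, W x ^ p) < crit m p ∧
    lamD m (fun x => 1 / 2 * V x + 1 / 2 * W x) < 1 / 2 * lamD m V + 1 / 2 * lamD m W :=
  mainAll hm hp

end Pool.Agent.Results.MP_0b7119_mp.ConcavityFails
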